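import Pool.Agent.MP_5e38ef_lc.Main

namespace Pool.Agent.MP_5e38ef_lc.Old.ShortWordProbes
open Pool.Agent.MP_5e38ef_lc

theorem result (k t : ℕ) (hk : 2 ≤ k) (ht : 1 ≤ t) (δ : ℝ) (hδ : 0 < δ) (hδ2 : δ ≤ 2) :
    ∀ᶠ n : ℕ in Filter.atTop, ∀ U S w : ℕ, 4 * n ^ k ≤ U →
      5 * ((t + 1) / 2 : ℕ) * (w : ℝ) ≤ δ * Real.logb 2 n → Solves k n U S w t →
        (n : ℝ) ^ ((k : ℝ) - δ) ≤ (S : ℝ) ^ ((t + 1) / 2) :=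
  main k t hk ht δ hδ hδ2

end Pool.Agent.MP_5e38ef_lc.Old.ShortWordProbes
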